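import Mathlib

set_option autoImplicit false

namespace Pool.Agent.Results.MP_130315_lc.UncountableDomain

universe a b u v

/-- A signature of predicate and function symbols with arities; function symbols are rigid or
non-rigid (constants are function symbols of arity 0). -/
structure Sig where
  /-- predicate symbols -/
  Pred : Type a
  /-- function symbols -/
  Fn : Type b
  /-- arity of a predicate symbol -/
  predAr : Pred → ℕ
  /-- arity of a function symbol -/
  fnAr : Fn → ℕ
  /-- which function symbols are rigid -/
  rigid : Fn → Prop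

/-- Terms: variables and applications of function symbols. -/
inductive Term (σ : Sig.{a, b}) : Type b
  | var : ℕ → Term σ
  | app : (f : σ.Fn) → (Fin (σ.fnAr f) → Term σ) → Term σ

/-- Formulas of inquisitive first-order logic InqBQ. -/
inductive Fml (σ : Sig.{a, b}) : Type (max a b)
  /-- atomic formula `P(t_1, ..., t_n)` -/
  | rel : (P : σ.Pred) → (Fin (σ.predAr P) → Term σ) → Fml σ
  /-- atomic formula `t = t'` -/
  | eq : Term σ → Term σ → Fml σ
  /-- falsum -/
  | bot : Fml σ
  /-- conjunction -/
  | and : Fml σ → Fml σ → Fml σ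
  /-- inquisitive disjunction -/
  | ior : Fml σ → Fml σ → Fml σ
  /-- implication -/
  | imp : Fml σ → Fml σ → Fml σ
  /-- universal quantifier -/
  | all : ℕ → Fml σ → Fml σ
  /-- inquisitive existential quantifier -/
  | iex : ℕ → Fml σ → Fml σ

/-- Models `(W, D, I, ~)` of InqBQ. -/
structure Model (σ : Sig.{a, b}) where
  /-- the universe: the set of worlds -/
  W : Type u
  /-- the domain of individuals -/
  D : Type v
  nonemptyW : Nonempty W
  nonemptyD : Nonempty D
  /-- interpretation of the predicate symbols at a world -/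
  predI : W → (P : σ.Pred) → (Fin (σ.predAr P) → D) → Prop
  /-- interpretation of the function symbols at a world -/
  fnI : W → (f : σ.Fn) → (Fin (σ.fnAr f) → D) → D
  /-- rigid function symbols get the same map at every world -/
  rigid_eq : ∀ f : σ.Fn, σ.rigid f → ∀ w w' : W, fnI w f = fnI w' f
  /-- the interpretation of identity at a world -/
  sim : W → D → D → Prop
  /-- identity is interpreted by an equivalence relation -/
  sim_equiv : ∀ w : W, Equivalence (sim w)
  /-- the equivalence relation is a congruence for the predicates -/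
  sim_pred : ∀ (w : W) (P : σ.Pred) (x y : Fin (σ.predAr P) → D),
    (∀ i, sim w (x i) (y i)) → (predI w P x ↔ predI w P y)
  /-- the equivalence relation is a congruence for the functions -/
  sim_fn : ∀ (w : W) (f : σ.Fn) (x y : Fin (σ.fnAr f) → D),
    (∀ i, sim w (x i) (y i)) → sim w (fnI w f x) (fnI w f y)

/-- The value of a term at a world under an assignment. -/
def Term.val {σ : Sig.{a, b}} (M : Model.{a, b, u, v} σ) (w : M.W) (g : ℕ → M.D) :
    Term σ → M.D
  | .var n => g n
  | .app f ts => M.fnI w f (fun i => (ts i).val M w g)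

/-- Support of a formula at a state `s` (a set of worlds) under an assignment `g`. -/
def Supports {σ : Sig.{a, b}} (M : Model.{a, b, u, v} σ) :
    Set M.W → (ℕ → M.D) → Fml σ → Prop
  | s, g, .rel P ts => ∀ w ∈ s, M.predI w P (fun i => (ts i).val M w g)
  | s, g, .eq t t' => ∀ w ∈ s, M.sim w (t.val M w g) (t'.val M w g)
  | s, _, .bot => s = ∅
  | s, g, .and φ ψ => Supports M s g φ ∧ Supports M s g ψ
  | s, g, .ior φ ψ => Supports M s g φ ∨ Supports M s g ψ
  | s, g, .imp φ ψ => ∀ t : Set M.W, t ⊆ s → Supports M t g φ → Supports M t g ψ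
  | s, g, .all x φ => ∀ d : M.D, Supports M s (Function.update g x d) φ
  | s, g, .iex x φ => ∃ d : M.D, Supports M s (Function.update g x d) φ

section Aux

variable {σ : Sig.{a, b}}

/-- negation -/
def neg (φ : Fml σ) : Fml σ := .imp φ .bot

/-- the polar question `?φ` -/
def whether (φ : Fml σ) : Fml σ := .ior φ (neg φ)

/-- classical existential quantifier -/
def cex (x : ℕ) (φ : Fml σ) : Fml σ := neg (.all x (neg φ))

/-- the atom `R(x_i, x_j)`, for a predicate symbol `R` of arity at least 2 (all further
argument places are filled with `x_j`) -/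
def rr (R : σ.Pred) (i j : ℕ) : Fml σ :=
  .rel R (fun k => if k.val = 0 then .var i else .var j)

/-- the atom `x_i = x_j` -/
def ee (i j : ℕ) : Fml σ := .eq (.var i) (.var j)

/-- `x_i` is a name: it differs from the parameter `x_0` and is `R`-related to it -/
def nm (R : σ.Pred) (i : ℕ) : Fml σ := .and (neg (ee i 0)) (rr R i 0)

/-- `x_i` and `x_j` are names with `x_i < x_j` -/
def lt (R : σ.Pred) (i j : ℕ) : Fml σ :=
  .and (nm R i) (.and (nm R j) (.and (neg (ee i j)) (rr R i j)))

/-- the state decides the value of `R(x_0,x_0)` on the worlds marked by any given name -/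
def alpha (R : σ.Pred) : Fml σ :=
  .all 2 (.imp (nm R 2) (.imp (rr R 2 2) (whether (rr R 0 0))))

/-- some individual codes the set of names whose mark goes with `R(x_0,x_0)` -/
def beta (R : σ.Pred) : Fml σ :=
  .iex 1 (.and (neg (nm R 1)) (.all 2 (.imp (nm R 2) (.imp (rr R 2 2)
    (.and (.imp (rr R 1 2) (rr R 0 0)) (.imp (rr R 0 0) (rr R 1 2)))))))

/-- the premise -/
def theta (R : σ.Pred) : Fml σ :=
  .and (.all 1 (.all 2 (whether (ee 1 2))))
  (.and (.all 1 (.all 2 (.imp (neg (ee 1 2)) (whether (rr R 1 2)))))
  (.and (cex 1 (nm R 1))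
  (.and (.all 1 (.imp (nm R 1) (cex 2 (lt R 1 2))))
  (.and (.all 1 (.all 2 (.all 3 (.imp (.and (lt R 1 2) (lt R 2 3)) (lt R 1 3)))))
  (.and (.all 1 (.all 2 (.imp (.and (.and (nm R 1) (nm R 2)) (.and (rr R 1 1) (rr R 2 2)))
    (ee 1 2))))
  (.imp (alpha R) (beta R)))))))

/-- the conclusion -/
def chi (R : σ.Pred) : Fml σ :=
  .ior (.iex 1 (.and (nm R 1) (.imp (rr R 1 1) (rr R 0 0))))
    (.iex 1 (.and (nm R 1) (.imp (rr R 1 1) (neg (rr R 0 0)))))

/-- the formula witnessing the failure -/
def phi (R : σ.Pred) : Fml σ := .imp (theta R) (chi R)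

variable (M : Model.{a, b, u, v} σ)

theorem supports_empty (φ : Fml σ) : ∀ g : ℕ → M.D, Supports M ∅ g φ := by
  induction φ with
  | rel P ts => intro g w hw; exact absurd hw (Set.notMem_empty w)
  | eq t t' => intro g w hw; exact absurd hw (Set.notMem_empty w)
  | bot => intro g; rfl
  | and φ ψ h1 h2 => intro g; exact ⟨h1 g, h2 g⟩
  | ior φ ψ h1 h2 => intro g; exact Or.inl (h1 g)
  | imp φ ψ h1 h2 =>
    intro g t ht _
    have : t = ∅ := Set.subset_eq_empty ht rfl
    subst this
    exact h2 g
  | all x φ h => intro g d; exact h _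
  | iex x φ h =>
    intro g
    obtain ⟨d⟩ := M.nonemptyD
    exact ⟨d, h _⟩

theorem supports_mono (φ : Fml σ) : ∀ (g : ℕ → M.D) (s t : Set M.W), t ⊆ s →
    Supports M s g φ → Supports M t g φ := by
  induction φ with
  | rel P ts => intro g s t hts h w hw; exact h w (hts hw)
  | eq t t' => intro g s t hts h w hw; exact h w (hts hw)
  | bot => intro g s t hts h; exact Set.subset_eq_empty hts h
  | and φ ψ h1 h2 => intro g s t hts h; exact ⟨h1 g s t hts h.1, h2 g s t hts h.2⟩
  | ior φ ψ h1 h2 =>
    intro g s t hts h
    rcases h with h | h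
    · exact Or.inl (h1 g s t hts h)
    · exact Or.inr (h2 g s t hts h)
  | imp φ ψ h1 h2 =>
    intro g s t hts h r hr hφ
    exact h r (hr.trans hts) hφ
  | all x φ h => intro g s t hts h' d; exact h _ s t hts (h' d)
  | iex x φ h =>
    intro g s t hts h'
    obtain ⟨d, hd⟩ := h'
    exact ⟨d, h _ s t hts hd⟩

/-- truth-conditional formulas -/
def TC (φ : Fml σ) : Prop :=
  ∀ (s : Set M.W) (g : ℕ → M.D), Supports M s g φ ↔ ∀ w ∈ s, Supports M {w} g φ

theorem tc_rel (P : σ.Pred) (ts : Fin (σ.predAr P) → Term σ) : TC M (.rel P ts) := by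
  intro s g
  constructor
  · intro h w hw w' hw'
    rw [Set.mem_singleton_iff] at hw'
    subst hw'
    exact h w' hw
  · intro h w hw
    exact h w hw w rfl

theorem tc_eq (t t' : Term σ) : TC M (.eq t t') := by
  intro s g
  constructor
  · intro h w hw w' hw'
    rw [Set.mem_singleton_iff] at hw'
    subst hw'
    exact h w' hw
  · intro h w hw
    exact h w hw w rfl

theorem tc_bot : TC M (.bot : Fml σ) := by
  intro s g
  constructor
  · intro h w hw
    change s = ∅ at h
    rw [h] at hw
    exact absurd hw (Set.notMem_empty w)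
  · intro h
    change s = ∅
    by_contra hne
    obtain ⟨w, hw⟩ := Set.nonempty_iff_ne_empty.mpr hne
    have := h w hw
    change ({w} : Set M.W) = ∅ at this
    exact Set.singleton_ne_empty w this

theorem tc_and {φ ψ : Fml σ} (h1 : TC M φ) (h2 : TC M ψ) : TC M (.and φ ψ) := by
  intro s g
  constructor
  · intro h w hw
    exact ⟨(h1 s g).1 h.1 w hw, (h2 s g).1 h.2 w hw⟩
  · intro h
    exact ⟨(h1 s g).2 fun w hw => (h w hw).1, (h2 s g).2 fun w hw => (h w hw).2⟩

theorem tc_imp {φ ψ : Fml σ} (h2 : TC M ψ) : TC M (.imp φ ψ) := by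
  intro s g
  constructor
  · intro h w hw
    exact supports_mono M (.imp φ ψ) g s {w} (Set.singleton_subset_iff.mpr hw) h
  · intro h t ht hφ
    refine (h2 t g).2 fun w hw => ?_
    exact h w (ht hw) {w} (Set.Subset.refl _)
      (supports_mono M φ g t {w} (Set.singleton_subset_iff.mpr hw) hφ)

theorem tc_all {φ : Fml σ} (x : ℕ) (h1 : TC M φ) : TC M (.all x φ) := by
  intro s g
  constructor
  · intro h w hw d
    exact (h1 s _).1 (h d) w hw
  · intro h d
    exact (h1 s _).2 fun w hw => h w hw d

theorem tc_neg (φ : Fml σ) : TC M (neg φ) := tc_imp M (tc_bot M)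

/-- the relation `R` at a world -/
def RR (R : σ.Pred) (w : M.W) (x y : M.D) : Prop :=
  M.predI w R (fun k => if k.val = 0 then x else y)

theorem supports_rr (R : σ.Pred) (s : Set M.W) (g : ℕ → M.D) (i j : ℕ) :
    Supports M s g (rr R i j) ↔ ∀ w ∈ s, RR M R w (g i) (g j) := by
  have key : ∀ w : M.W, (fun k : Fin (σ.predAr R) =>
      Term.val M w g (if k.val = 0 then .var i else .var j)) =
      (fun k : Fin (σ.predAr R) => if k.val = 0 then g i else g j) := by
    intro w
    funext k
    split_ifs <;> rfl
  constructor
  · intro h w hw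
    have := h w hw
    rw [key w] at this
    exact this
  · intro h w hw
    change M.predI w R (fun k : Fin (σ.predAr R) =>
      Term.val M w g (if k.val = 0 then .var i else .var j))
    rw [key w]
    exact h w hw

theorem supports_ee (s : Set M.W) (g : ℕ → M.D) (i j : ℕ) :
    Supports M s g (ee i j) ↔ ∀ w ∈ s, M.sim w (g i) (g j) := Iff.rfl

theorem supports_neg (φ : Fml σ) (s : Set M.W) (g : ℕ → M.D) :
    Supports M s g (neg φ) ↔ ∀ w ∈ s, ¬ Supports M {w} g φ := by
  constructor
  · intro h w hw hφ
    have := h {w} (Set.singleton_subset_iff.mpr hw) hφ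
    exact Set.singleton_ne_empty w this
  · intro h t ht hφ
    change t = ∅
    by_contra hne
    obtain ⟨w, hw⟩ := Set.nonempty_iff_ne_empty.mpr hne
    exact h w (ht hw) (supports_mono M φ g t {w} (Set.singleton_subset_iff.mpr hw) hφ)

theorem supports_cex (x : ℕ) (φ : Fml σ) (s : Set M.W) (g : ℕ → M.D) :
    Supports M s g (cex x φ) ↔ ∀ w ∈ s, ∃ d : M.D, Supports M {w} (Function.update g x d) φ := by
  unfold cex
  rw [supports_neg]
  refine forall₂_congr fun w hw => ?_
  constructor
  · intro h
    by_contra hcon
    push Not at hcon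
    apply h
    intro d
    rw [supports_neg]
    intro w' hw'
    rw [Set.mem_singleton_iff] at hw'
    subst hw'
    exact hcon d
  · rintro ⟨d, hd⟩ h
    have := h d
    rw [supports_neg] at this
    exact this w rfl hd

/-- being a name at a world, semantically -/
def NM (R : σ.Pred) (w : M.W) (q x : M.D) : Prop := ¬ M.sim w x q ∧ RR M R w x q

theorem supports_nm (R : σ.Pred) (s : Set M.W) (g : ℕ → M.D) (i : ℕ) :
    Supports M s g (nm R i) ↔ ∀ w ∈ s, NM M R w (g 0) (g i) := by
  unfold nm
  constructor
  · intro h w hw
    refine ⟨?_, (supports_rr M R s g i 0).1 h.2 w hw⟩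
    have := (supports_neg M (ee i 0) s g).1 h.1 w hw
    intro hs
    apply this
    rw [supports_ee]
    intro w' hw'
    rw [Set.mem_singleton_iff] at hw'
    subst hw'
    exact hs
  · intro h
    refine ⟨?_, (supports_rr M R s g i 0).2 fun w hw => (h w hw).2⟩
    rw [supports_neg]
    intro w hw hs
    rw [supports_ee] at hs
    exact (h w hw).1 (hs w rfl)

/-- the strict order of names at a world, semantically -/
def LT' (R : σ.Pred) (w : M.W) (q x y : M.D) : Prop :=
  NM M R w q x ∧ NM M R w q y ∧ ¬ M.sim w x y ∧ RR M R w x y

theorem supports_lt (R : σ.Pred) (s : Set M.W) (g : ℕ → M.D) (i j : ℕ) :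
    Supports M s g (lt R i j) ↔ ∀ w ∈ s, LT' M R w (g 0) (g i) (g j) := by
  unfold lt
  constructor
  · intro h w hw
    refine ⟨(supports_nm M R s g i).1 h.1 w hw, (supports_nm M R s g j).1 h.2.1 w hw, ?_,
      (supports_rr M R s g i j).1 h.2.2.2 w hw⟩
    have := (supports_neg M (ee i j) s g).1 h.2.2.1 w hw
    intro hs
    apply this
    rw [supports_ee]
    intro w' hw'
    rw [Set.mem_singleton_iff] at hw'
    subst hw'
    exact hs
  · intro h
    refine ⟨(supports_nm M R s g i).2 fun w hw => (h w hw).1,
      (supports_nm M R s g j).2 fun w hw => (h w hw).2.1, ?_,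
      (supports_rr M R s g i j).2 fun w hw => (h w hw).2.2.2⟩
    rw [supports_neg]
    intro w hw hs
    rw [supports_ee] at hs
    exact (h w hw).2.2.1 (hs w rfl)


theorem supports_whether (φ : Fml σ) (s : Set M.W) (g : ℕ → M.D) :
    Supports M s g (whether φ) ↔ Supports M s g φ ∨ ∀ w ∈ s, ¬ Supports M {w} g φ := by
  constructor
  · rintro (h | h)
    · exact Or.inl h
    · exact Or.inr ((supports_neg M φ s g).1 h)
  · rintro (h | h)
    · exact Or.inl h
    · exact Or.inr ((supports_neg M φ s g).2 h)

/-- In a state supporting the premise but not the conclusion, every set of natural numbers is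
coded by an individual, so the domain is uncountable. -/
theorem uncountable_of_refutes (R : σ.Pred) (t : Set M.W) (g : ℕ → M.D)
    (hθ : Supports M t g (theta R)) (hχ : ¬ Supports M t g (chi R)) : ¬ Countable M.D := by
  obtain ⟨h1, h2, h3, h4, h5, h6, h7⟩ := hθ
  set q : M.D := g 0 with hq
  -- the state is non-empty
  have hne : t.Nonempty := by
    by_contra hcon
    rw [Set.not_nonempty_iff_eq_empty] at hcon
    apply hχ
    rw [hcon]
    exact supports_empty M _ g
  -- identity is rigid on the state
  have e1 : ∀ x y : M.D, (∀ w ∈ t, M.sim w x y) ∨ (∀ w ∈ t, ¬ M.sim w x y) := by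
    intro x y
    have := (supports_whether M (ee 1 2) t _).1 (h1 x y)
    rcases this with h | h
    · left
      intro w hw
      have := (supports_ee M t _ 1 2).1 h w hw
      simpa [Function.update] using this
    · right
      intro w hw hs
      apply h w hw
      rw [supports_ee]
      intro w' hw'
      rw [Set.mem_singleton_iff] at hw'
      subst hw'
      simpa [Function.update] using hs
  -- R is rigid on the state, off the diagonal
  have e2 : ∀ x y : M.D, (∀ w ∈ t, ¬ M.sim w x y) →
      (∀ w ∈ t, RR M R w x y) ∨ (∀ w ∈ t, ¬ RR M R w x y) := by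
    intro x y hxy
    have hpre : Supports M t (Function.update (Function.update g 1 x) 2 y) (neg (ee 1 2)) := by
      rw [supports_neg]
      intro w hw hs
      rw [supports_ee] at hs
      apply hxy w hw
      simpa [Function.update] using hs w rfl
    have := (supports_whether M (rr R 1 2) t _).1 (h2 x y t (Set.Subset.refl _) hpre)
    rcases this with h | h
    · left
      intro w hw
      have := (supports_rr M R t _ 1 2).1 h w hw
      simpa [Function.update] using this
    · right
      intro w hw hs
      apply h w hw
      rw [supports_rr]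
      intro w' hw'
      rw [Set.mem_singleton_iff] at hw'
      subst hw'
      simpa [Function.update] using hs
  obtain ⟨w0, hw0⟩ := hne
  -- being a name is rigid on the state
  have nmr : ∀ (x : M.D) (w w' : M.W), w ∈ t → w' ∈ t → NM M R w q x → NM M R w' q x := by
    intro x w w' hw hw' h
    have hs : ∀ w ∈ t, ¬ M.sim w x q := by
      rcases e1 x q with h' | h'
      · exact absurd (h' w hw) h.1
      · exact h'
    refine ⟨hs w' hw', ?_⟩
    rcases e2 x q hs with h' | h'
    · exact h' w' hw'
    · exact absurd h.2 (h' w hw)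
  -- there is a name
  have e3 : ∃ x : M.D, NM M R w0 q x := by
    obtain ⟨d, hd⟩ := (supports_cex M 1 (nm R 1) t g).1 h3 w0 hw0
    have := (supports_nm M R {w0} _ 1).1 hd w0 rfl
    exact ⟨d, by simpa [Function.update] using this⟩
  -- there is no last name
  have e4 : ∀ x : M.D, NM M R w0 q x → ∃ y : M.D, LT' M R w0 q x y := by
    intro x hx
    have hpre : Supports M t (Function.update g 1 x) (nm R 1) := by
      rw [supports_nm]
      intro w hw
      have := nmr x w0 w hw0 hw hx
      simpa [Function.update] using this
    have h := h4 x t (Set.Subset.refl _) hpre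
    obtain ⟨y, hy⟩ := (supports_cex M 2 (lt R 1 2) t _).1 h w0 hw0
    have := (supports_lt M R {w0} _ 1 2).1 hy w0 rfl
    exact ⟨y, by simpa [Function.update] using this⟩
  -- transitivity
  have e5 : ∀ x y z : M.D, LT' M R w0 q x y → LT' M R w0 q y z → LT' M R w0 q x z := by
    intro x y z hxy hyz
    have h := h5 x y z {w0} (Set.singleton_subset_iff.mpr hw0)
    have hpre : Supports M {w0}
        (Function.update (Function.update (Function.update g 1 x) 2 y) 3 z)
        (.and (lt R 1 2) (lt R 2 3)) := by
      refine ⟨?_, ?_⟩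
      · rw [supports_lt]
        intro w hw
        rw [Set.mem_singleton_iff] at hw
        subst hw
        simpa [Function.update] using hxy
      · rw [supports_lt]
        intro w hw
        rw [Set.mem_singleton_iff] at hw
        subst hw
        simpa [Function.update] using hyz
    have := (supports_lt M R {w0} _ 1 3).1 (h hpre) w0 rfl
    simpa [Function.update] using this
  -- at most one name is marked at a world
  have e6 : ∀ w ∈ t, ∀ x y : M.D, NM M R w q x → NM M R w q y → RR M R w x x → RR M R w y y →
      M.sim w x y := by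
    intro w hw x y hx hy hxx hyy
    have h := h6 x y {w} (Set.singleton_subset_iff.mpr hw)
    have hpre : Supports M {w} (Function.update (Function.update g 1 x) 2 y)
        (.and (.and (nm R 1) (nm R 2)) (.and (rr R 1 1) (rr R 2 2))) := by
      refine ⟨⟨?_, ?_⟩, ?_, ?_⟩
      · rw [supports_nm]
        intro w' hw'
        rw [Set.mem_singleton_iff] at hw'
        subst hw'
        simpa [Function.update] using hx
      · rw [supports_nm]
        intro w' hw'
        rw [Set.mem_singleton_iff] at hw'
        subst hw'
        simpa [Function.update] using hy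
      · rw [supports_rr]
        intro w' hw'
        rw [Set.mem_singleton_iff] at hw'
        subst hw'
        simpa [Function.update] using hxx
      · rw [supports_rr]
        intro w' hw'
        rw [Set.mem_singleton_iff] at hw'
        subst hw'
        simpa [Function.update] using hyy
    have := (supports_ee M {w} _ 1 2).1 (h hpre) w rfl
    simpa [Function.update] using this
  -- every name is marked at worlds of both kinds
  have e8 : ∀ x : M.D, NM M R w0 q x →
      (∃ w ∈ t, RR M R w x x ∧ RR M R w q q) ∧ (∃ w ∈ t, RR M R w x x ∧ ¬ RR M R w q q) := by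
    intro x hx
    have hpre : Supports M t (Function.update g 1 x) (nm R 1) := by
      rw [supports_nm]
      intro w hw
      have := nmr x w0 w hw0 hw hx
      simpa [Function.update] using this
    constructor
    · by_contra hcon
      push Not at hcon
      apply hχ
      right
      refine ⟨x, hpre, ?_⟩
      intro u hu hR
      rw [supports_neg]
      intro w hw hQ
      rw [supports_rr] at hR hQ
      refine hcon w (hu hw) ?_ ?_
      · simpa [Function.update] using hR w hw
      · simpa [Function.update] using hQ w rfl
    · by_contra hcon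
      push Not at hcon
      apply hχ
      left
      refine ⟨x, hpre, ?_⟩
      intro u hu hR
      rw [supports_rr]
      intro w hw
      rw [supports_rr] at hR
      have := hcon w (hu hw) (by simpa [Function.update] using hR w hw)
      simpa [Function.update] using this
  -- an infinite increasing sequence of names
  obtain ⟨x0, hx0⟩ := e3
  choose! nxt hnxt using e4
  let a : ℕ → M.D := fun n => Nat.rec x0 (fun _ x => nxt x) n
  have ha : ∀ n, NM M R w0 q (a n) := by
    intro n
    induction n with
    | zero => exact hx0
    | succ n ih => exact (hnxt (a n) ih).2.1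
  have hasucc : ∀ n, LT' M R w0 q (a n) (a (n + 1)) := fun n => hnxt (a n) (ha n)
  have halt : ∀ i k, LT' M R w0 q (a i) (a (i + k + 1)) := by
    intro i k
    induction k with
    | zero => exact hasucc i
    | succ k ih => exact e5 _ _ _ ih (hasucc (i + k + 1))
  have hane : ∀ i j, i < j → ¬ M.sim w0 (a i) (a j) := by
    intro i j hij
    obtain ⟨k, rfl⟩ := Nat.exists_eq_add_of_lt hij
    exact (halt i k).2.2.1
  have hainj : ∀ w ∈ t, ∀ i j, M.sim w (a i) (a j) → i = j := by
    intro w hw i j h
    have h0 : M.sim w0 (a i) (a j) := by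
      rcases e1 (a i) (a j) with h' | h'
      · exact h' w0 hw0
      · exact absurd h (h' w hw)
    rcases lt_trichotomy i j with hlt | heq | hgt
    · exact absurd h0 (hane i j hlt)
    · exact heq
    · exact absurd ((M.sim_equiv w0).symm h0) (hane j i hgt)
  -- every set of natural numbers is coded
  have code : ∀ A : Set ℕ, ∃ c : M.D, ∀ i : ℕ, (∀ w ∈ t, (RR M R w c (a i) ↔ i ∈ A)) := by
    intro A
    let u : Set M.W := {w | w ∈ t ∧ ∃ i, RR M R w (a i) (a i) ∧ (RR M R w q q ↔ i ∈ A)}
    have hut : u ⊆ t := fun w hw => hw.1
    have hα : Supports M u g (alpha R) := by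
      intro d v hv hnm v' hv' hR
      rw [supports_nm] at hnm
      rw [supports_rr] at hR
      have hnm' : ∀ w ∈ v, NM M R w q d := by
        intro w hw
        simpa [Function.update] using hnm w hw
      have hR' : ∀ w ∈ v', RR M R w d d := by
        intro w hw
        simpa [Function.update] using hR w hw
      rw [supports_whether]
      by_cases hex : ∃ w ∈ v', RR M R w q q
      · left
        rw [supports_rr]
        intro w' hw'
        obtain ⟨w, hw, hQ⟩ := hex
        obtain ⟨hwt, i, hi, hiA⟩ := hv (hv' hw)
        obtain ⟨hwt', i', hi', hiA'⟩ := hv (hv' hw')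
        have s1 : M.sim w d (a i) :=
          e6 w hwt d (a i) (hnm' w (hv' hw)) (nmr _ w0 w hw0 hwt (ha i)) (hR' w hw) hi
        have s2 : M.sim w' d (a i') :=
          e6 w' hwt' d (a i') (hnm' w' (hv' hw')) (nmr _ w0 w' hw0 hwt' (ha i')) (hR' w' hw') hi'
        have s1' : M.sim w' d (a i) := by
          rcases e1 d (a i) with h' | h'
          · exact h' w' hwt'
          · exact absurd s1 (h' w hwt)
        have hii : i = i' :=
          hainj w' hwt' i i' ((M.sim_equiv w').trans ((M.sim_equiv w').symm s1') s2)
        subst hii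
        have : RR M R w' q q := hiA'.2 (hiA.1 hQ)
        simpa [Function.update] using this
      · right
        intro w hw hQ
        rw [supports_rr] at hQ
        apply hex
        exact ⟨w, hw, by simpa [Function.update] using hQ w rfl⟩
    obtain ⟨c, hc1, hc2⟩ := h7 u hut hα
    refine ⟨c, ?_⟩
    intro i
    -- a world in u marking a i
    have hwi : ∃ w ∈ u, RR M R w (a i) (a i) := by
      obtain ⟨⟨w1, hw1, hr1, hq1⟩, ⟨w2, hw2, hr2, hq2⟩⟩ := e8 (a i) (ha i)
      by_cases hiA : i ∈ A
      · exact ⟨w1, ⟨hw1, i, hr1, by simp [hiA, hq1]⟩, hr1⟩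
      · exact ⟨w2, ⟨hw2, i, hr2, by simp [hiA, hq2]⟩, hr2⟩
    obtain ⟨w, hwu, hwR⟩ := hwi
    have hwt : w ∈ t := hut hwu
    -- c is not a name, so it differs from a i
    have hcn : ¬ M.sim w c (a i) := by
      intro hs
      rw [supports_neg] at hc1
      apply hc1 w hwu
      rw [supports_nm]
      intro w' hw'
      rw [Set.mem_singleton_iff] at hw'
      subst hw'
      have hnai : NM M R w' q (a i) := nmr _ w0 w' hw0 hwt (ha i)
      have : NM M R w' q c := by
        refine ⟨fun hcq => hnai.1 ((M.sim_equiv w').trans ((M.sim_equiv w').symm hs) hcq), ?_⟩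
        have := (M.sim_pred w' R (fun k => if k.val = 0 then c else q)
          (fun k => if k.val = 0 then a i else q) (by
            intro k
            split_ifs
            · exact hs
            · exact (M.sim_equiv w').refl q)).2 hnai.2
        exact this
      simpa [Function.update] using this
    have hcn' : ∀ w ∈ t, ¬ M.sim w c (a i) := by
      rcases e1 c (a i) with h' | h'
      · exact absurd (h' w hwt) hcn
      · exact h'
    -- the value at w
    have hval : RR M R w c (a i) ↔ i ∈ A := by
      have hpre : Supports M u (Function.update (Function.update g 1 c) 2 (a i)) (nm R 2) := by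
        rw [supports_nm]
        intro w' hw'
        have := nmr _ w0 w' hw0 (hut hw') (ha i)
        simpa [Function.update] using this
      have h := hc2 (a i) u (Set.Subset.refl _) hpre {w} (Set.singleton_subset_iff.mpr hwu) (by
        rw [supports_rr]
        intro w' hw'
        rw [Set.mem_singleton_iff] at hw'
        subst hw'
        simpa [Function.update] using hwR)
      obtain ⟨k1, k2⟩ := h
      have hQi : RR M R w q q ↔ i ∈ A := by
        obtain ⟨_, i', hi', hiA'⟩ := hwu
        have : i = i' := hainj w hwt i i'
          (e6 w hwt (a i) (a i') (nmr _ w0 w hw0 hwt (ha i)) (nmr _ w0 w hw0 hwt (ha i')) hwR hi')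
        subst this
        exact hiA'
      rw [← hQi]
      constructor
      · intro hRc
        have := k1 {w} (Set.Subset.refl _) (by
          rw [supports_rr]
          intro w' hw'
          rw [Set.mem_singleton_iff] at hw'
          subst hw'
          simpa [Function.update] using hRc)
        rw [supports_rr] at this
        simpa [Function.update] using this w rfl
      · intro hRq
        have := k2 {w} (Set.Subset.refl _) (by
          rw [supports_rr]
          intro w' hw'
          rw [Set.mem_singleton_iff] at hw'
          subst hw'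
          simpa [Function.update] using hRq)
        rw [supports_rr] at this
        simpa [Function.update] using this w rfl
    intro w' hw'
    rw [← hval]
    rcases e2 c (a i) hcn' with h' | h'
    · exact ⟨fun _ => h' w hwt, fun _ => h' w' hw'⟩
    · exact ⟨fun h => absurd h (h' w' hw'), fun h => absurd h (h' w hwt)⟩
  choose c hc using code
  intro hcount
  obtain ⟨f, hf⟩ := Countable.exists_injective_nat M.D
  have hinj : Function.Injective (fun A : Set ℕ => f (c A)) := by
    intro A B hAB
    have hcc : c A = c B := hf hAB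
    ext i
    rw [← hc A i w0 hw0, ← hc B i w0 hw0, hcc]
  exact Function.cantor_injective _ hinj

/-- The individuals of the countermodel: one parameter, names for the natural numbers, and
codes for the sets of natural numbers. -/
inductive Ind : Type
  | par : Ind
  | name : ℕ → Ind
  | code : Set ℕ → Ind

/-- The relation `R` of the countermodel at the world `(n, b)`. -/
def rel0 (w : ℕ × Bool) : Ind → Ind → Prop
  | .par, .par => w.2 = true
  | .name _, .par => True
  | .name i, .name j => i < j ∨ (i = j ∧ w.1 = i)
  | .code A, .name n => n ∈ A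
  | _, _ => False

/-- The countermodel. -/
def cm (σ : Sig.{a, b}) (R : σ.Pred) : Model.{a, b, 0, 0} σ where
  W := ℕ × Bool
  D := Ind
  nonemptyW := ⟨(0, true)⟩
  nonemptyD := ⟨.par⟩
  predI w P v := P = R ∧ ∃ x y : Ind, rel0 w x y ∧ (∀ i, i.val = 0 → v i = x) ∧
    (∀ i, i.val = 1 → v i = y)
  fnI _ _ _ := .par
  rigid_eq _ _ _ _ := rfl
  sim _ x y := x = y
  sim_equiv _ := ⟨fun _ => rfl, fun h => h.symm, fun h h' => h.trans h'⟩
  sim_pred w P x y h := by
    have : x = y := funext h
    rw [this]
  sim_fn _ _ _ _ _ := rfl

/-- the world `(n, b)` of the countermodel -/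
def wd (σ : Sig.{a, b}) (R : σ.Pred) (w : ℕ × Bool) : (cm σ R).W := w

/-- the world as a pair -/
def wp {σ : Sig.{a, b}} {R : σ.Pred} (w : (cm σ R).W) : ℕ × Bool := w

/-- an individual of the countermodel -/
def id' (σ : Sig.{a, b}) (R : σ.Pred) (x : Ind) : (cm σ R).D := x

/-- an individual of the countermodel, seen as an element of `Ind` -/
def ip {σ : Sig.{a, b}} {R : σ.Pred} (x : (cm σ R).D) : Ind := x

theorem cm_sim (R : σ.Pred) (w : (cm σ R).W) (x y : (cm σ R).D) :
    (cm σ R).sim w x y ↔ ip x = ip y := Iff.rfl

theorem cm_RR (R : σ.Pred) (hR : 2 ≤ σ.predAr R) (w : (cm σ R).W) (x y : (cm σ R).D) :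
    RR (cm σ R) R w x y ↔ rel0 (wp w) (ip x) (ip y) := by
  constructor
  · rintro ⟨_, x', y', h, hx, hy⟩
    have h0 : ip x = x' := hx ⟨0, by omega⟩ rfl
    have h1 : ip y = y' := by
      have := hy ⟨1, by omega⟩ rfl
      exact this
    rw [h0, h1]
    exact h
  · intro h
    refine ⟨rfl, x, y, h, ?_, ?_⟩
    · intro i hi
      exact if_pos hi
    · intro i hi
      exact if_neg (by omega)

theorem cm_NM (R : σ.Pred) (hR : 2 ≤ σ.predAr R) (w : (cm σ R).W) (x : (cm σ R).D) :
    NM (cm σ R) R w (id' σ R Ind.par) x ↔ ∃ n, ip x = .name n := by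
  unfold NM
  rw [cm_RR R hR, cm_sim]
  change (¬ ip x = Ind.par ∧ rel0 (wp w) (ip x) Ind.par) ↔ _
  generalize ip x = x
  constructor
  · rintro ⟨h1, h2⟩
    cases x with
    | par => exact absurd rfl h1
    | name n => exact ⟨n, rfl⟩
    | code A => exact absurd h2 (by simp [rel0])
  · rintro ⟨n, rfl⟩
    refine ⟨?_, ?_⟩
    · intro h
      exact Ind.noConfusion h
    · simp [rel0]

theorem cm_LT (R : σ.Pred) (hR : 2 ≤ σ.predAr R) (w : (cm σ R).W) (x y : (cm σ R).D) :
    LT' (cm σ R) R w (id' σ R Ind.par) x y ↔
      ∃ m n, ip x = .name m ∧ ip y = .name n ∧ m < n := by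
  unfold LT'
  rw [cm_RR R hR, cm_NM R hR, cm_NM R hR, cm_sim]
  generalize ip x = x
  generalize ip y = y
  constructor
  · rintro ⟨⟨m, rfl⟩, ⟨n, rfl⟩, hne, h⟩
    refine ⟨m, n, rfl, rfl, ?_⟩
    rcases h with h | ⟨h, _⟩
    · exact h
    · exfalso
      apply hne
      rw [h]
  · rintro ⟨m, n, rfl, rfl, h⟩
    refine ⟨⟨m, rfl⟩, ⟨n, rfl⟩, ?_, Or.inl h⟩
    intro h'
    injection h' with h3
    omega

/-- the assignment of the countermodel -/
def g0 (σ : Sig.{a, b}) (R : σ.Pred) : ℕ → (cm σ R).D := fun _ => id' σ R Ind.par

theorem upd0 (R : σ.Pred) (x : (cm σ R).D) (k : ℕ) :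
    Function.update (g0 σ R) (k + 1) x 0 = id' σ R Ind.par := by
  simp [g0]

theorem upd1 (R : σ.Pred) (x : (cm σ R).D) (k : ℕ) :
    Function.update (g0 σ R) k x k = x := by
  simp

theorem upd20 (R : σ.Pred) (x y : (cm σ R).D) :
    Function.update (Function.update (g0 σ R) 1 x) 2 y 0 = id' σ R Ind.par := by
  simp [g0, Function.update]

theorem upd21 (R : σ.Pred) (x y : (cm σ R).D) :
    Function.update (Function.update (g0 σ R) 1 x) 2 y 1 = x := by
  simp [Function.update]

theorem upd22 (R : σ.Pred) (x y : (cm σ R).D) :
    Function.update (Function.update (g0 σ R) 1 x) 2 y 2 = y := by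
  simp

theorem upd30 (R : σ.Pred) (x y z : (cm σ R).D) :
    Function.update (Function.update (Function.update (g0 σ R) 1 x) 2 y) 3 z 0 =
      id' σ R Ind.par := by
  simp [g0, Function.update]

theorem upd31 (R : σ.Pred) (x y z : (cm σ R).D) :
    Function.update (Function.update (Function.update (g0 σ R) 1 x) 2 y) 3 z 1 = x := by
  simp [Function.update]

theorem upd32 (R : σ.Pred) (x y z : (cm σ R).D) :
    Function.update (Function.update (Function.update (g0 σ R) 1 x) 2 y) 3 z 2 = y := by
  simp [Function.update]

theorem upd33 (R : σ.Pred) (x y z : (cm σ R).D) :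
    Function.update (Function.update (Function.update (g0 σ R) 1 x) 2 y) 3 z 3 = z := by
  simp

theorem single_mem {α : Type*} {x y : α} (h : x ∈ ({y} : Set α)) : x = y := h

theorem cm_theta (R : σ.Pred) (hR : 2 ≤ σ.predAr R) :
    Supports (cm σ R) Set.univ (g0 σ R) (theta R) := by
  refine ⟨?_, ?_, ?_, ?_, ?_, ?_, ?_⟩
  · intro x y
    rw [supports_whether, supports_ee, upd21, upd22]
    by_cases hxy : ip x = ip y
    · left
      intro w _
      rw [cm_sim]
      exact hxy
    · right
      intro w _ hs
      rw [supports_ee, upd21, upd22] at hs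
      exact hxy ((cm_sim R w x y).1 (hs w rfl))
  · intro x y u hu hne
    rw [supports_whether, supports_rr, upd21, upd22]
    by_cases hemp : u = ∅
    · left
      intro w hw
      rw [hemp] at hw
      exact absurd hw (Set.notMem_empty w)
    obtain ⟨w0, hw0⟩ := Set.nonempty_iff_ne_empty.mpr hemp
    have hxy : ip x ≠ ip y := by
      intro h
      rw [supports_neg] at hne
      apply hne w0 hw0
      rw [supports_ee, upd21, upd22]
      intro w _
      rw [cm_sim]
      exact h
    have key : ∀ (w w' : ℕ × Bool) (x y : Ind), x ≠ y → rel0 w x y → rel0 w' x y := by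
      intro w w' x y hxy h
      cases x with
      | par =>
        cases y with
        | par => exact absurd rfl hxy
        | name n => exact h
        | code A => exact h
      | name m =>
        cases y with
        | par => exact trivial
        | name n =>
          rcases h with h | h
          · exact Or.inl h
          · exact absurd (by rw [h.1]) hxy
        | code A => exact h
      | code A =>
        cases y with
        | par => exact h
        | name n => exact h
        | code B => exact h
    by_cases hr : rel0 (wp w0) (ip x) (ip y)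
    · left
      intro w _
      rw [cm_RR R hR]
      exact key _ _ _ _ hxy hr
    · right
      intro w _ hs
      rw [supports_rr, upd21, upd22] at hs
      have := (cm_RR R hR _ _ _).1 (hs w rfl)
      exact hr (key _ _ _ _ hxy this)
  · rw [supports_cex]
    intro w _
    refine ⟨id' σ R (Ind.name 0), ?_⟩
    rw [supports_nm, upd0, upd1]
    intro w' _
    rw [cm_NM R hR]
    exact ⟨0, rfl⟩
  · intro x u hu hx
    rw [supports_cex]
    intro w hw
    rw [supports_nm, upd0, upd1] at hx
    obtain ⟨n, hn⟩ := (cm_NM R hR w x).1 (hx w hw)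
    refine ⟨id' σ R (Ind.name (n + 1)), ?_⟩
    rw [supports_lt, upd20, upd21, upd22]
    intro w' _
    rw [cm_LT R hR]
    exact ⟨n, n + 1, hn, rfl, Nat.lt_succ_self n⟩
  · intro x y z u hu hpre
    obtain ⟨h1, h2⟩ := hpre
    rw [supports_lt, upd30, upd31, upd32] at h1
    rw [supports_lt, upd30, upd32, upd33] at h2
    rw [supports_lt, upd30, upd31, upd33]
    intro w hw
    obtain ⟨l, m, hl, hm, hlm⟩ := (cm_LT R hR w _ _).1 (h1 w hw)
    obtain ⟨m', n, hmm, hn, hmn⟩ := (cm_LT R hR w _ _).1 (h2 w hw)
    rw [hm] at hmm
    injection hmm with hmm'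
    subst hmm'
    rw [cm_LT R hR]
    exact ⟨l, n, hl, hn, hlm.trans hmn⟩
  · intro x y u hu hpre
    obtain ⟨⟨h1, h2⟩, h3, h4⟩ := hpre
    rw [supports_nm, upd20, upd21] at h1
    rw [supports_nm, upd20, upd22] at h2
    rw [supports_rr, upd21] at h3
    rw [supports_rr, upd22] at h4
    rw [supports_ee, upd21, upd22]
    intro w hw
    obtain ⟨m, hm⟩ := (cm_NM R hR w x).1 (h1 w hw)
    obtain ⟨n, hn⟩ := (cm_NM R hR w y).1 (h2 w hw)
    have h3' := (cm_RR R hR _ _ _).1 (h3 w hw)
    have h4' := (cm_RR R hR _ _ _).1 (h4 w hw)
    rw [hm] at h3'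
    rw [hn] at h4'
    have hm' : (wp w).1 = m := by
      rcases h3' with h | h
      · exact absurd h (lt_irrefl _)
      · exact h.2
    have hn' : (wp w).1 = n := by
      rcases h4' with h | h
      · exact absurd h (lt_irrefl _)
      · exact h.2
    rw [cm_sim, hm, hn, ← hm', ← hn']
  · intro u _ hα
    -- the coded set
    refine ⟨id' σ R (Ind.code {n | wd σ R (n, true) ∈ u}), ?_, ?_⟩
    · rw [supports_neg]
      intro w _ hs
      rw [supports_nm, upd0, upd1] at hs
      obtain ⟨n, hn⟩ := (cm_NM R hR w _).1 (hs w rfl)
      exact Ind.noConfusion hn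
    · intro y v hv hnm v' hv' hRy
      rw [supports_nm, upd20, upd22] at hnm
      rw [supports_rr, upd22] at hRy
      have key : ∀ w ∈ v', ∃ n : ℕ, ip y = Ind.name n ∧ (wp w).1 = n ∧
          (wd σ R (n, true) ∈ u ↔ (wp w).2 = true) := by
        intro w hw
        obtain ⟨n, hn⟩ := (cm_NM R hR w y).1 (hnm w (hv' hw))
        have h2 := (cm_RR R hR _ _ _).1 (hRy w hw)
        rw [hn] at h2
        have hwn : (wp w).1 = n := by
          rcases h2 with h | h
          · exact absurd h (lt_irrefl _)
          · exact h.2
        refine ⟨n, hn, hwn, ?_⟩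
        have hwu : w ∈ u := hv (hv' hw)
        constructor
        · intro hnu
          -- the pair of worlds (n, true) and w
          have hsub : ({wd σ R (n, true), w} : Set (cm σ R).W) ⊆ u := by
            intro x hx
            rcases hx with hx | hx
            · rw [hx]; exact hnu
            · rw [single_mem hx]; exact hwu
          have hh := hα (id' σ R (Ind.name n)) {wd σ R (n, true), w} hsub (by
            rw [supports_nm]
            intro x _
            have : NM (cm σ R) R x (id' σ R Ind.par) (id' σ R (Ind.name n)) :=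
              (cm_NM R hR x _).2 ⟨n, rfl⟩
            simpa [Function.update, g0] using this) {wd σ R (n, true), w} (Set.Subset.refl _) (by
            rw [supports_rr, upd1]
            intro x hx
            rw [cm_RR R hR]
            right
            refine ⟨rfl, ?_⟩
            rcases hx with hx | hx
            · rw [hx]; rfl
            · rw [single_mem hx]; exact hwn)
          rw [supports_whether] at hh
          rcases hh with hh | hh
          · rw [supports_rr] at hh
            have h3 := (cm_RR R hR _ _ _).1 (hh w (Or.inr rfl))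
            have h4 : Function.update (g0 σ R) 2 (id' σ R (Ind.name n)) 0 = id' σ R Ind.par := by
              simp [g0, Function.update]
            rw [h4] at h3
            exact h3
          · exfalso
            apply hh (wd σ R (n, true)) (Or.inl rfl)
            rw [supports_rr]
            intro x hx
            rw [single_mem hx, cm_RR R hR]
            have h4 : Function.update (g0 σ R) 2 (id' σ R (Ind.name n)) 0 = id' σ R Ind.par := by
              simp [g0, Function.update]
            rw [h4]
            exact rfl
        · intro hw2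
          have : w = wd σ R (n, true) := Prod.ext hwn hw2
          rw [← this]
          exact hwu
      refine ⟨?_, ?_⟩
      · intro v2 hv2 h1
        rw [supports_rr, upd21, upd22] at h1
        rw [supports_rr, upd20]
        intro w hw
        obtain ⟨n, hn, hwn, hiff⟩ := key w (hv2 hw)
        have h := (cm_RR R hR _ _ _).1 (h1 w hw)
        rw [hn] at h
        rw [cm_RR R hR]
        exact hiff.1 h
      · intro v2 hv2 h1
        rw [supports_rr, upd20] at h1
        rw [supports_rr, upd21, upd22]
        intro w hw
        obtain ⟨n, hn, hwn, hiff⟩ := key w (hv2 hw)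
        have h := (cm_RR R hR _ _ _).1 (h1 w hw)
        rw [cm_RR R hR, hn]
        exact hiff.2 h

theorem cm_not_chi (R : σ.Pred) (hR : 2 ≤ σ.predAr R) :
    ¬ Supports (cm σ R) Set.univ (g0 σ R) (chi R) := by
  rintro (⟨x, hx, h⟩ | ⟨x, hx, h⟩)
  · rw [supports_nm, upd0, upd1] at hx
    obtain ⟨n, hn⟩ := (cm_NM R hR _ x).1 (hx (wd σ R (0, true)) (Set.mem_univ _))
    have h1 := h {wd σ R (n, false)} (Set.subset_univ _) (by
      rw [supports_rr, upd1]
      intro w hw
      rw [single_mem hw, cm_RR R hR, hn]
      exact Or.inr ⟨rfl, rfl⟩)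
    rw [supports_rr, upd0] at h1
    have h2 := (cm_RR R hR _ _ _).1 (h1 _ rfl)
    exact Bool.noConfusion h2
  · rw [supports_nm, upd0, upd1] at hx
    obtain ⟨n, hn⟩ := (cm_NM R hR _ x).1 (hx (wd σ R (0, true)) (Set.mem_univ _))
    have h1 := h {wd σ R (n, true)} (Set.subset_univ _) (by
      rw [supports_rr, upd1]
      intro w hw
      rw [single_mem hw, cm_RR R hR, hn]
      exact Or.inr ⟨rfl, rfl⟩)
    rw [supports_neg] at h1
    apply h1 _ rfl
    rw [supports_rr, upd0]
    intro w hw
    rw [single_mem hw, cm_RR R hR]
    exact rfl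

end Aux

/-- **Main theorem.** For every signature containing a predicate symbol of arity at least 2 there
is a formula of InqBQ which is not valid (it is even refuted by a model whose universe is
countable), but which is supported at every state under every assignment in every model whose
domain is countable. -/
theorem result (σ : Sig.{a, b}) (R : σ.Pred) (hR : 2 ≤ σ.predAr R) :
    ∃ φ : Fml σ,
      (∃ M : Model.{a, b, 0, 0} σ, Countable M.W ∧
        ∃ (s : Set M.W) (g : ℕ → M.D), ¬ Supports M s g φ) ∧
      (∀ M : Model.{a, b, u, v} σ, Countable M.D →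
        ∀ (s : Set M.W) (g : ℕ → M.D), Supports M s g φ) := by
  refine ⟨phi R, ⟨cm σ R, ?_, Set.univ, g0 σ R, ?_⟩, ?_⟩
  · change Countable (ℕ × Bool)
    infer_instance
  · intro h
    exact cm_not_chi R hR (h Set.univ (Set.Subset.refl _) (cm_theta R hR))
  · intro M hM s g t _ hθ
    by_contra hχ
    exact uncountable_of_refutes M R t g hθ hχ hM

end Pool.Agent.Results.MP_130315_lc.UncountableDomain
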